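import Pool.Agent.H.MP_79314c_pr.E

namespace Pool.Agent.Results.MP_79314c_pr.Counter
open MeasureTheory Pool.Agent.H.MP_79314c_pr
open scoped NNReal

theorem result : ∃ F : Measure ℝ≥0, IsProbabilityMeasure F ∧
    (∀ u v : ℤ × ℤ, Measurable fun τ : Edge → ℝ≥0 => T τ u v) ∧
    ∀ n : ℕ, Odd n → ∃ t : ℝ,
      Measure.infinitePi (fun _ : Edge => F) {τ | t < (T τ (0, 0) ((n : ℤ) + 1, 0) : ℝ)} <
        Measure.infinitePi (fun _ : Edge => F) {τ | t < (T τ (0, 0) ((n : ℤ), 0) : ℝ)} := by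
  obtain ⟨F, hF, H⟩ := main
  refine ⟨F, hF, T_meas, ?_⟩
  rintro n ⟨j, rfl⟩
  obtain ⟨t, ht⟩ := H j
  refine ⟨t, ?_⟩
  simp only [NNReal.coe_lt_coe]
  push_cast
  rwa [add_assoc, one_add_one_eq_two]

end Pool.Agent.Results.MP_79314c_pr.Counter
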